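import Pool.Agent.V119.Ostrowski

set_option autoImplicit false
set_option linter.unusedSectionVars false

namespace Pool.Agent.Results.MP_4a7e1d_al.QuaternionQuotient

universe u v

open scoped Quaternion

section Defs

variable {F : Type u} [DivisionRing F] (Γ : Subgroup Fˣ) [Γ.Normal]

/-- the underlying set `{0} ∪ F^×/Γ` of the quotient `F/Γ`, with its multiplication -/
abbrev Quot : Type u := WithZero (Fˣ ⧸ Γ)

open Classical in
/-- the class `[x] ∈ F/Γ` of `x ∈ F` -/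
noncomputable def cls (x : F) : Quot Γ :=
  if h : x = 0 then 0 else ((QuotientGroup.mk (Units.mk0 x h) : Fˣ ⧸ Γ) : Quot Γ)

/-- the hyperaddition of `F/Γ` -/
def hadd (X Y : Quot Γ) : Set (Quot Γ) :=
  {Z | ∃ x y : F, cls Γ x = X ∧ cls Γ y = Y ∧ cls Γ (x + y) = Z}

/-- Isomorphisms `F/Γ → K/Δ`: bijections preserving `0`, products and hypersums. -/
structure HIso {F : Type u} [DivisionRing F] (Γ : Subgroup Fˣ) [Γ.Normal]
    {K : Type v} [DivisionRing K] (Δ : Subgroup Kˣ) [Δ.Normal] where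
  toEquiv : Quot Γ ≃ Quot Δ
  map_zero : toEquiv 0 = 0
  map_mul : ∀ X Y, toEquiv (X * Y) = toEquiv X * toEquiv Y
  map_hadd : ∀ X Y, toEquiv '' (hadd Γ X Y) = hadd Δ (toEquiv X) (toEquiv Y)

lemma cls_zero : cls Γ (0 : F) = 0 := by simp [cls]

lemma cls_of_ne {x : F} (h : x ≠ 0) :
    cls Γ x = ((QuotientGroup.mk (Units.mk0 x h) : Fˣ ⧸ Γ) : Quot Γ) := by simp [cls, h]

lemma cls_eq_zero {x : F} : cls Γ x = 0 ↔ x = 0 := by
  constructor
  · intro h
    by_contra hx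
    rw [cls_of_ne Γ hx] at h
    exact WithZero.coe_ne_zero h
  · rintro rfl
    exact cls_zero Γ

lemma cls_surjective : Function.Surjective (cls Γ) := by
  intro X
  induction X using WithZero.recZeroCoe with
  | zero => exact ⟨0, cls_zero Γ⟩
  | coe g =>
    obtain ⟨u, rfl⟩ := QuotientGroup.mk_surjective g
    refine ⟨(u : F), ?_⟩
    rw [cls_of_ne Γ u.ne_zero]
    congr 2
    exact Units.ext rfl

lemma cls_mul (x y : F) : cls Γ (x * y) = cls Γ x * cls Γ y := by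
  by_cases hx : x = 0
  · rw [hx, zero_mul, cls_zero, zero_mul]
  · by_cases hy : y = 0
    · rw [hy, mul_zero, cls_zero, mul_zero]
    · rw [cls_of_ne Γ hx, cls_of_ne Γ hy, cls_of_ne Γ (mul_ne_zero hx hy), ← WithZero.coe_mul,
        ← QuotientGroup.mk_mul]
      congr 2
      exact Units.ext rfl

end Defs

/-! ### The quaternions -/

/-- the norm on the unit group of the rational quaternions -/
noncomputable def nmHom : (ℍ[ℚ])ˣ →* ℚˣ := Units.map (Quaternion.normSq : ℍ[ℚ] →*₀ ℚ)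

/-- the group of rational quaternions of norm one -/
noncomputable def Γ₁ : Subgroup (ℍ[ℚ])ˣ := nmHom.ker

instance : Γ₁.Normal := by unfold Γ₁; infer_instance

lemma normSq_eq_of_cls {p q : ℍ[ℚ]} (h : cls Γ₁ p = cls Γ₁ q) :
    Quaternion.normSq p = Quaternion.normSq q := by
  by_cases hp : p = 0
  · subst hp
    rw [cls_zero] at h
    rw [(cls_eq_zero Γ₁).mp h.symm]
  · by_cases hq : q = 0
    · subst hq
      rw [cls_zero, cls_eq_zero] at h
      exact absurd h hp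
    · rw [cls_of_ne Γ₁ hp, cls_of_ne Γ₁ hq, WithZero.coe_inj, QuotientGroup.eq] at h
      have h1 : nmHom ((Units.mk0 p hp)⁻¹ * Units.mk0 q hq) = 1 := h
      rw [map_mul, map_inv, inv_mul_eq_one] at h1
      exact congrArg Units.val h1

/-- the norm on `F/Γ` -/
noncomputable def nrm (X : Quot Γ₁) : ℚ :=
  Quaternion.normSq (Function.surjInv (cls_surjective Γ₁) X)

lemma nrm_cls (q : ℍ[ℚ]) : nrm (cls Γ₁ q) = Quaternion.normSq q :=
  normSq_eq_of_cls (Function.surjInv_eq (cls_surjective Γ₁) _)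

lemma cs (p q : ℍ[ℚ]) :
    (Quaternion.normSq (p + q) - Quaternion.normSq p - Quaternion.normSq q) ^ 2 ≤
      4 * Quaternion.normSq p * Quaternion.normSq q := by
  simp only [Quaternion.normSq_def', Quaternion.re_add, Quaternion.imI_add, Quaternion.imJ_add,
    Quaternion.imK_add]
  nlinarith [sq_nonneg (p.re * q.imI - p.imI * q.re), sq_nonneg (p.re * q.imJ - p.imJ * q.re),
    sq_nonneg (p.re * q.imK - p.imK * q.re), sq_nonneg (p.imI * q.imJ - p.imJ * q.imI),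
    sq_nonneg (p.imI * q.imK - p.imK * q.imI), sq_nonneg (p.imJ * q.imK - p.imK * q.imJ)]

section Iso

variable {K : Type v} [Field K] {Δ : Subgroup Kˣ} (Φ : HIso Γ₁ Δ)

/-- the transported norm -/
noncomputable def nu (x : K) : ℚ := nrm (Φ.toEquiv.symm (cls Δ x))

lemma nu_eq {x : K} {q : ℍ[ℚ]} (h : cls Δ x = Φ.toEquiv (cls Γ₁ q)) :
    nu Φ x = Quaternion.normSq q := by
  unfold nu
  rw [h, Equiv.symm_apply_apply, nrm_cls]

lemma exists_q (x : K) : ∃ q : ℍ[ℚ], cls Δ x = Φ.toEquiv (cls Γ₁ q) := by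
  obtain ⟨q, hq⟩ := cls_surjective Γ₁ (Φ.toEquiv.symm (cls Δ x))
  exact ⟨q, by rw [hq, Equiv.apply_symm_apply]⟩

lemma nu_mul (x y : K) : nu Φ (x * y) = nu Φ x * nu Φ y := by
  obtain ⟨p, hp⟩ := exists_q Φ x
  obtain ⟨q, hq⟩ := exists_q Φ y
  have h : cls Δ (x * y) = Φ.toEquiv (cls Γ₁ (p * q)) := by
    rw [cls_mul, cls_mul, Φ.map_mul, hp, hq]
  rw [nu_eq Φ h, nu_eq Φ hp, nu_eq Φ hq, map_mul]

lemma nu_nonneg (x : K) : 0 ≤ nu Φ x := by
  obtain ⟨p, hp⟩ := exists_q Φ x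
  rw [nu_eq Φ hp]
  exact Quaternion.normSq_nonneg

lemma nu_eq_zero (x : K) : nu Φ x = 0 ↔ x = 0 := by
  obtain ⟨p, hp⟩ := exists_q Φ x
  rw [nu_eq Φ hp, Quaternion.normSq_eq_zero]
  constructor
  · rintro rfl
    rw [cls_zero, Φ.map_zero, cls_eq_zero] at hp
    exact hp
  · rintro rfl
    rw [cls_zero, ← Φ.map_zero] at hp
    exact (cls_eq_zero Γ₁).mp (Φ.toEquiv.injective hp).symm

lemma nu_add (x y : K) : ∃ p q : ℍ[ℚ], nu Φ x = Quaternion.normSq p ∧
    nu Φ y = Quaternion.normSq q ∧ nu Φ (x + y) = Quaternion.normSq (p + q) := by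
  obtain ⟨p₀, hp₀⟩ := exists_q Φ x
  obtain ⟨q₀, hq₀⟩ := exists_q Φ y
  have h1 : cls Δ (x + y) ∈ hadd Δ (Φ.toEquiv (cls Γ₁ p₀)) (Φ.toEquiv (cls Γ₁ q₀)) :=
    ⟨x, y, hp₀, hq₀, rfl⟩
  rw [← Φ.map_hadd] at h1
  obtain ⟨Z, ⟨p, q, hp, hq, rfl⟩, hZ⟩ := h1
  refine ⟨p, q, ?_, ?_, ?_⟩
  · rw [nu_eq Φ hp₀]
    exact normSq_eq_of_cls hp.symm
  · rw [nu_eq Φ hq₀]
    exact normSq_eq_of_cls hq.symm
  · exact nu_eq Φ hZ.symm

lemma exists_xy (p q : ℍ[ℚ]) : ∃ x y : K, nu Φ x = Quaternion.normSq p ∧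
    nu Φ y = Quaternion.normSq q ∧ nu Φ (x + y) = Quaternion.normSq (p + q) := by
  have h1 : Φ.toEquiv (cls Γ₁ (p + q)) ∈ hadd Δ (Φ.toEquiv (cls Γ₁ p)) (Φ.toEquiv (cls Γ₁ q)) := by
    rw [← Φ.map_hadd]
    exact ⟨_, ⟨p, q, rfl, rfl, rfl⟩, rfl⟩
  obtain ⟨x, y, hx, hy, hxy⟩ := h1
  exact ⟨x, y, nu_eq Φ hx, nu_eq Φ hy, nu_eq Φ hxy⟩

/-- the absolute value `√ν` -/
noncomputable def av : AbsoluteValue K ℝ where
  toFun x := Real.sqrt (nu Φ x)
  map_mul' x y := by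
    rw [nu_mul, Rat.cast_mul, Real.sqrt_mul (by exact_mod_cast nu_nonneg Φ x)]
  nonneg' x := Real.sqrt_nonneg _
  eq_zero' x := by
    rw [Real.sqrt_eq_zero (by exact_mod_cast nu_nonneg Φ x)]
    exact_mod_cast nu_eq_zero Φ x
  add_le' x y := by
    obtain ⟨p, q, hp, hq, hpq⟩ := nu_add Φ x y
    have hc := cs p q
    rw [← hp, ← hq, ← hpq] at hc
    have ha : (0 : ℝ) ≤ nu Φ x := by exact_mod_cast nu_nonneg Φ x
    have hb : (0 : ℝ) ≤ nu Φ y := by exact_mod_cast nu_nonneg Φ y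
    have hc' : ((nu Φ (x + y) : ℝ) - nu Φ x - nu Φ y) ^ 2 ≤ 4 * nu Φ x * nu Φ y := by
      exact_mod_cast hc
    have h1 : Real.sqrt (nu Φ x) ^ 2 = nu Φ x := Real.sq_sqrt ha
    have h2 : Real.sqrt (nu Φ y) ^ 2 = nu Φ y := Real.sq_sqrt hb
    have h3 := Real.sqrt_nonneg (nu Φ x : ℝ)
    have h4 := Real.sqrt_nonneg (nu Φ y : ℝ)
    rw [Real.sqrt_le_left (by positivity)]
    have h5 : ((nu Φ (x + y) : ℝ) - nu Φ x - nu Φ y) ≤
        2 * (Real.sqrt (nu Φ x) * Real.sqrt (nu Φ y)) := by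
      apply le_of_sq_le_sq _ (by positivity)
      calc ((nu Φ (x + y) : ℝ) - nu Φ x - nu Φ y) ^ 2 ≤ 4 * nu Φ x * nu Φ y := hc'
        _ = (2 * (Real.sqrt (nu Φ x) * Real.sqrt (nu Φ y))) ^ 2 := by
          rw [mul_pow, mul_pow, h1, h2]
          ring
    nlinarith

lemma av_sq (x : K) : (av Φ x) ^ 2 = nu Φ x := Real.sq_sqrt (by exact_mod_cast nu_nonneg Φ x)

lemma av_of_nu_one {x : K} (h : nu Φ x = 1) : av Φ x = 1 := by
  show Real.sqrt (nu Φ x) = 1
  rw [h]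
  simp

lemma av_two : av Φ (2 : K) = 2 := by
  apply le_antisymm
  · have h : (2 : K) = 1 + 1 := by norm_num
    rw [h]
    refine le_trans ((av Φ).add_le 1 1) ?_
    rw [(av Φ).map_one]
    norm_num
  · obtain ⟨x, y, hx, hy, hxy⟩ := exists_xy Φ 1 1
    have n1 : Quaternion.normSq (1 : ℍ[ℚ]) = 1 := map_one _
    have n2 : Quaternion.normSq (1 + 1 : ℍ[ℚ]) = 4 := by
      rw [Quaternion.normSq_def']
      simp only [Quaternion.re_add, Quaternion.imI_add, Quaternion.imJ_add,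
        Quaternion.imK_add, Quaternion.re_one, Quaternion.imI_one, Quaternion.imJ_one,
        Quaternion.imK_one]
      norm_num
    rw [n1] at hx hy
    rw [n2] at hxy
    have vx := av_of_nu_one Φ hx
    have vy := av_of_nu_one Φ hy
    have h1 : av Φ ((x + y) ^ 2) = 4 := by
      rw [map_pow, av_sq, hxy]
      norm_num
    have h2 : (x + y) ^ 2 = x * x + (2 * x * y + y * y) := by ring
    have h3 : av Φ ((x + y) ^ 2) ≤ 1 + (av Φ 2 + 1) := by
      rw [h2]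
      refine le_trans ((av Φ).add_le _ _) ?_
      refine add_le_add (le_of_eq ?_) (le_trans ((av Φ).add_le _ _) (le_of_eq ?_))
      · rw [map_mul, vx, one_mul]
      · rw [map_mul, map_mul, map_mul, vx, vy, mul_one, mul_one, one_mul]
    linarith

lemma av_nat_le (n : ℕ) : av Φ (n : K) ≤ n := by
  induction n with
  | zero => simp
  | succ n ih =>
    push_cast
    refine le_trans ((av Φ).add_le _ _) ?_
    rw [(av Φ).map_one]
    linarith

lemma av_nat (n : ℕ) : av Φ (n : K) = n := by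
  apply le_antisymm (av_nat_le Φ n)
  have h1 : n < 2 ^ n := Nat.lt_two_pow_self
  have h2 : ((2 : K) ^ n) = (n : K) + ((2 ^ n - n : ℕ) : K) := by
    rw [← Nat.cast_add, Nat.add_sub_cancel' h1.le]
    push_cast
    rfl
  have h3 : av Φ ((2 : K) ^ n) = 2 ^ n := by rw [map_pow, av_two]
  have h4 : av Φ ((2 : K) ^ n) ≤ av Φ (n : K) + ((2 ^ n - n : ℕ) : ℝ) := by
    rw [h2]
    refine le_trans ((av Φ).add_le _ _) ?_
    have := av_nat_le Φ (K := K) (2 ^ n - n)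
    linarith
  rw [h3, Nat.cast_sub h1.le] at h4
  push_cast at h4
  linarith

/-- elements of `K` of norm one with prescribed real part -/
lemma exists_w (q : ℍ[ℚ]) (hq : Quaternion.normSq q = 1) :
    ∃ w : K, nu Φ w = 1 ∧ nu Φ (1 + w) = 2 + 2 * q.re := by
  obtain ⟨x, y, hx, hy, hxy⟩ := exists_xy Φ 1 q
  rw [map_one] at hx
  rw [hq] at hy
  have hx0 : x ≠ 0 := by
    rintro rfl
    rw [(nu_eq_zero Φ 0).mpr rfl] at hx
    exact zero_ne_one hx
  refine ⟨y / x, ?_, ?_⟩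
  · have h1 := nu_mul Φ x (y / x)
    rw [mul_div_cancel₀ _ hx0, hx, hy, one_mul] at h1
    exact h1.symm
  · have h1 := nu_mul Φ x (1 + y / x)
    rw [mul_add, mul_one, mul_div_cancel₀ _ hx0, hx, hxy, one_mul] at h1
    rw [← h1]
    rw [Quaternion.normSq_def'] at hq ⊢
    simp only [Quaternion.re_add, Quaternion.imI_add, Quaternion.imJ_add,
      Quaternion.imK_add, Quaternion.re_one, Quaternion.imI_one, Quaternion.imJ_one,
      Quaternion.imK_one]
    linear_combination hq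

/-- the quaternion `a + bi + cj + dk` -/
def qt (a b c d : ℚ) : ℍ[ℚ] := ⟨a, b, c, d⟩

lemma normSq_qt (a b c d : ℚ) : Quaternion.normSq (qt a b c d) = a ^ 2 + b ^ 2 + c ^ 2 + d ^ 2 := by
  rw [Quaternion.normSq_def']
  rfl

lemma re_qt (a b c d : ℚ) : (qt a b c d).re = a := rfl

lemma no_iso (Φ : HIso Γ₁ Δ) : False := by
  obtain ⟨f, hf⟩ := Pool.Agent.V119.Ostrowski.exists_embedding (av Φ) (av_nat Φ)
  have hsq : ∀ x, (f x).re ^ 2 + (f x).im ^ 2 = nu Φ x := by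
    intro x
    rw [← av_sq, ← hf, ← Complex.normSq_eq_norm_sq, Complex.normSq_apply]
    ring
  have hre : ∀ x, (f x).re = (((nu Φ (1 + x) - nu Φ x - 1) / 2 : ℚ) : ℝ) := by
    intro x
    have h1 := hsq x
    have h2 := hsq (1 + x)
    rw [map_add, map_one, Complex.add_re, Complex.add_im, Complex.one_re, Complex.one_im] at h2
    push_cast
    rw [← h1, ← h2]
    ring
  obtain ⟨w, hw1, hw2⟩ := exists_w Φ (qt 0 1 0 0) (by
    rw [normSq_qt]
    norm_num)
  obtain ⟨t, ht1, ht2⟩ := exists_w Φ (qt (1 / 3) (2 / 3) (2 / 3) 0) (by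
    rw [normSq_qt]
    norm_num)
  rw [re_qt] at hw2 ht2
  have r1 : (f w).re = 0 := by
    rw [hre, hw1, hw2]
    norm_num
  have r2 : (f t).re = 1 / 3 := by
    rw [hre, ht1, ht2]
    norm_num
  have i1 : (f w).im ^ 2 = 1 := by
    have := hsq w
    rw [r1, hw1] at this
    push_cast at this
    linarith
  have i2 : (f t).im ^ 2 = 8 / 9 := by
    have := hsq t
    rw [r2, ht1] at this
    push_cast at this
    linarith
  obtain ⟨r, hr⟩ : ∃ r : ℚ, (f (w * t)).re = r := ⟨_, hre _⟩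
  have h1 : (r : ℝ) ^ 2 = 8 / 9 := by
    rw [← hr, map_mul, Complex.mul_re, r1, zero_mul, zero_sub, neg_sq, mul_pow, i1, i2, one_mul]
  have h2 : ((3 / 2 * |r| : ℚ) : ℝ) ^ 2 = 2 := by
    push_cast
    rw [mul_pow, sq_abs, h1]
    norm_num
  apply irrational_sqrt_two
  refine ⟨3 / 2 * |r|, ?_⟩
  rw [← h2, Real.sqrt_sq]
  positivity

end Iso

/-- **There is a quotient hyperfield `F/Γ` of a skew field (the rational quaternions modulo the
norm-one group) which is not a quotient of a field.** -/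
theorem result :
    ∃ (F : Type) (_ : DivisionRing F) (Γ : Subgroup Fˣ) (_ : Γ.Normal),
      (∀ a b : Fˣ ⧸ Γ, a * b = b * a) ∧
      ∀ (K : Type v) [Field K] (Δ : Subgroup Kˣ), IsEmpty (HIso Γ Δ) := by
  refine ⟨ℍ[ℚ], inferInstance, Γ₁, inferInstance, ?_, ?_⟩
  · intro a b
    obtain ⟨a, rfl⟩ := QuotientGroup.mk_surjective a
    obtain ⟨b, rfl⟩ := QuotientGroup.mk_surjective b
    rw [← QuotientGroup.mk_mul, ← QuotientGroup.mk_mul, QuotientGroup.eq]
    show nmHom ((a * b)⁻¹ * (b * a)) = 1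
    rw [map_mul, map_inv, map_mul, map_mul, mul_comm (nmHom b), inv_mul_cancel]
  · intro K _ Δ
    exact ⟨fun Φ => no_iso Φ⟩

end Pool.Agent.Results.MP_4a7e1d_al.QuaternionQuotient
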